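import Pool.Agent.Lib.MP_7f581e_U.I.Spec1

/-!
# C41 (MP_7f581e_nt), Block I, AcI: transport of `ActsThrough` along an isomorphism
-/

set_option autoImplicit false

namespace MP7U

open MP7K

theorem iAcI : AcIStmt := by
  rintro G _ M T T' _ _ e A ⟨n, φ, h⟩
  refine ⟨n, φ.trans (MulEquiv.piCongrRight fun _ => e), fun g => ?_⟩
  obtain ⟨σ, α, hα⟩ := h g
  refine ⟨σ, fun j => ⟨MulAut.congr e (α j : MulAut T), ⟨(α j : MulAut T), (α j).2, rfl⟩⟩,
    fun x y hxy j => ?_⟩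
  have h1 := hα x y hxy j
  change e (φ y (σ j)) = e ((α j : MulAut T) (e.symm (e (φ x j))))
  rw [h1, e.symm_apply_apply]

end MP7U
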