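import Pool.Agent.Lib.MP_7f581e_U.I.Spec1

/-!
# C41 (MP_7f581e_nt), Block I, FnI: there are finitely many groups of order at most `N`
-/

set_option autoImplicit false

namespace MP7U

open MP7K

namespace FnIM

private theorem finite_group (X : Type) [Finite X] : Finite (Group X) := by
  refine Finite.of_injective (β := X → X → X) (fun g => g.mul) ?_
  intro g₁ g₂ h
  exact Group.ext h

private theorem exists_bound {ι : Type} [Finite ι] (f : ι → ℕ) : ∃ b, ∀ i, f i ≤ b := by
  obtain ⟨b, hb⟩ := (Set.finite_range f).bddAbove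
  exact ⟨b, fun i => hb ⟨i, rfl⟩⟩

private theorem map_map_symm {T T' : Type} [Group T] [Group T'] (e : T ≃* T')
    (B : Subgroup (MulAut T)) :
    (B.map (MulAut.congr e).toMonoidHom).map (MulAut.congr e.symm).toMonoidHom = B := by
  rw [Subgroup.map_map]
  have h : (MulAut.congr e.symm).toMonoidHom.comp (MulAut.congr e).toMonoidHom =
      MonoidHom.id (MulAut T) := by
    refine MonoidHom.ext fun α => MulEquiv.ext fun x => ?_
    change e.symm (e (α (e.symm (e x)))) = α x
    rw [e.symm_apply_apply, e.symm_apply_apply]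
  rw [h, Subgroup.map_id]

private theorem bound_X {N : ℕ} {R : (T : Type) → [Group T] → Subgroup (MulAut T) → ℕ → Prop}
    (hR : ∀ (T : Type) [Group T] [Finite T], Nat.card T ≤ N → ∀ B : Subgroup (MulAut T),
      ∃ n₀ : ℕ, ∀ p, n₀ < p → R T B p) (X : Type) [Finite X] (hX : Nat.card X ≤ N) :
    ∃ n₀ : ℕ, ∀ (g : Group X) (B : Subgroup (MulAut X)) (p : ℕ), n₀ < p → R X B p := by
  have h1 : ∀ g : Group X, ∃ n₀ : ℕ, ∀ B : Subgroup (MulAut X), ∀ p, n₀ < p → R X B p := by
    intro g
    have h2 : ∀ B : Subgroup (MulAut X), ∃ n₀ : ℕ, ∀ p, n₀ < p → R X B p := fun B => hR X hX B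
    choose f hf using h2
    obtain ⟨b, hb⟩ := exists_bound f
    exact ⟨b, fun B p hp => hf B p (lt_of_le_of_lt (hb B) hp)⟩
  choose F hF using h1
  have := finite_group X
  obtain ⟨b, hb⟩ := exists_bound F
  exact ⟨b, fun g B p hp => hF g B p (lt_of_le_of_lt (hb g) hp)⟩

private theorem transport {R : (T : Type) → [Group T] → Subgroup (MulAut T) → ℕ → Prop}
    (hinv : ∀ (T T' : Type) [Group T] [Group T'] (e : T ≃* T') (B : Subgroup (MulAut T)) (p : ℕ),
      R T B p → R T' (B.map (MulAut.congr e).toMonoidHom) p) (X T : Type) [Group T] (e₀ : T ≃ X)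
    {n₀ : ℕ} (h : ∀ (g : Group X) (B : Subgroup (MulAut X)) (p : ℕ), n₀ < p → R X B p)
    (B : Subgroup (MulAut T)) (p : ℕ) (hp : n₀ < p) : R T B p := by
  let g : Group X := e₀.symm.group
  let e : X ≃* T := e₀.symm.mulEquiv
  have h4 := h g (B.map (MulAut.congr e.symm).toMonoidHom) p hp
  have h5 := hinv X T e _ p h4
  have h6 := map_map_symm e.symm B
  rw [MulEquiv.symm_symm] at h6
  rw [h6] at h5
  exact h5

end FnIM

open FnIM in
theorem iFnI : FnIStmt := by
  intro N R hinv hR
  have h1 : ∀ m : Fin (N + 1), ∃ n₀ : ℕ, ∀ (g : Group (Fin m))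
      (B : Subgroup (@MulAut (Fin m) g.toDivInvMonoid.toMulOneClass.toMul)) (p : ℕ),
      n₀ < p → @R (Fin m) g B p := by
    intro m
    refine bound_X hR (Fin m) ?_
    rw [Nat.card_eq_fintype_card, Fintype.card_fin]
    exact Nat.lt_succ_iff.mp m.2
  choose F hF using h1
  obtain ⟨b, hb⟩ := exists_bound F
  refine ⟨b, fun T _ _ hT B p hp => ?_⟩
  let m : Fin (N + 1) := ⟨Nat.card T, Nat.lt_succ_iff.mpr hT⟩
  exact transport hinv (Fin m) T (Finite.equivFin T) (hF m) B p (lt_of_le_of_lt (hb m) hp)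

end MP7U
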