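import Pool.Agent.Lib.MP_7f581e_U.I.Spec1

/-!
# C41 (MP_7f581e_nt), block I: transport of `HasGAOver` along an isomorphism
(helper25, task 12561)
-/

set_option autoImplicit false

namespace MP7U

open MP7K

namespace GcIM

private theorem congr_conj {T T' : Type} [Group T] [Group T'] (e : T ≃* T') (s : T) :
    MulAut.congr e (MulAut.conj s) = MulAut.conj (e s) := by
  ext x
  show e (s * e.symm x * s⁻¹) = e s * x * (e s)⁻¹
  simp

private theorem mem_iff {T T' : Type} [Group T] [Group T'] (e : T ≃* T') (α : MulAut T) :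
    MulAut.congr e α ∈ (MulAut.conj (G := T')).range ↔ α ∈ (MulAut.conj (G := T)).range := by
  constructor
  · rintro ⟨t, ht⟩
    refine ⟨e.symm t, (MulAut.congr e).injective ?_⟩
    rw [congr_conj, ← ht, MulEquiv.apply_symm_apply]
  · rintro ⟨t, rfl⟩
    exact ⟨e t, (congr_conj e t).symm⟩

end GcIM

theorem iGcI : GcIStmt := by
  intro k _ T T' _ _ e A h
  obtain ⟨hfin, hs, ⟨x, y, hxy⟩, hA, L, iF, iA, a, hinj, hC, hy⟩ := h
  have hf : Function.Injective (MulAut.congr e).toMonoidHom := (MulAut.congr e).injective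
  have key : ∀ β, (a.comp (A.equivMapOfInjective _ hf).symm.toMonoidHom)
      (A.equivMapOfInjective _ hf β) = a β := fun β =>
    congrArg a ((A.equivMapOfInjective _ hf).symm_apply_apply β)
  refine ⟨Finite.of_equiv T e.toEquiv, ?_, ⟨e x, e y, ?_⟩, ?_, L, iF, iA,
    a.comp (A.equivMapOfInjective _ hf).symm.toMonoidHom, ?_, ?_, ?_⟩
  · exact e.symm.isSimpleGroup
  · intro h
    apply hxy
    apply e.injective
    rw [map_mul, map_mul, h]
  · rintro _ ⟨t, rfl⟩
    refine ⟨MulAut.conj (e.symm t), hA ⟨_, rfl⟩, ?_⟩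
    refine (GcIM.congr_conj e _).trans ?_
    rw [MulEquiv.apply_symm_apply]
  · exact hinj.comp (A.equivMapOfInjective _ hf).symm.injective
  · exact fun α c => hC _ c
  · intro z
    rw [← hy z]
    constructor
    · intro h α hα
      have := h (A.equivMapOfInjective _ hf α) (by
        rw [Subgroup.coe_equivMapOfInjective_apply]
        exact (GcIM.mem_iff e _).2 hα)
      rwa [key] at this
    · intro h α hα
      obtain ⟨β, rfl⟩ := (A.equivMapOfInjective _ hf).surjective α
      rw [Subgroup.coe_equivMapOfInjective_apply] at hα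
      rw [key]
      exact h β ((GcIM.mem_iff e _).1 hα)

end MP7U
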