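import Pool.Agent.Lib.MP_7f581e_U.I.Spec1

/-!
# C41 (MP_7f581e_nt), Block I, GnI: GA realisations, uniformly for order at most `N`
-/

set_option autoImplicit false

namespace MP7U

open MP7K

namespace GnIM

/-- The property to which FnI is applied. -/
def RR (T : Type) [Group T] (B : Subgroup (MulAut T)) (p : ℕ) : Prop :=
  ∀ [Fact p.Prime], IsSimpleGroup T → (∃ a b : T, a * b ≠ b * a) → 2 ∣ Nat.card T → Finite T →
    (∃ ρ : B →* PGL2 (ZMod p), Function.Injective ρ) →
    HasGAOver (ZMod p) T ((MulAut.conj (G := T)).range ⊔ B)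

private theorem map_inn {T T' : Type} [Group T] [Group T'] (e : T ≃* T') :
    (MulAut.conj (G := T)).range.map (MulAut.congr e).toMonoidHom = (MulAut.conj (G := T')).range := by
  ext α
  constructor
  · rintro ⟨_, ⟨s, rfl⟩, rfl⟩
    refine ⟨e s, MulEquiv.ext fun x => ?_⟩
    change e s * x * (e s)⁻¹ = e (s * e.symm x * s⁻¹)
    rw [map_mul, map_mul, map_inv, e.apply_symm_apply]
  · rintro ⟨s, rfl⟩
    refine ⟨MulAut.conj (e.symm s), ⟨_, rfl⟩, MulEquiv.ext fun x => ?_⟩
    change e (e.symm s * e.symm x * (e.symm s)⁻¹) = s * x * s⁻¹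
    rw [map_mul, map_mul, map_inv, e.apply_symm_apply, e.apply_symm_apply]

private theorem RR_inv (h1 : GcIStmt) (T T' : Type) [Group T] [Group T'] (e : T ≃* T')
    (B : Subgroup (MulAut T)) (p : ℕ) (h : RR T B p) :
    RR T' (B.map (MulAut.congr e).toMonoidHom) p := by
  intro _ hs hab h2 hf ⟨ρ, hρ⟩
  have hf' : Finite T := Finite.of_equiv T' e.symm.toEquiv
  have hs' : IsSimpleGroup T := e.isSimpleGroup
  have hab' : ∃ a b : T, a * b ≠ b * a := by
    obtain ⟨a, b, hne⟩ := hab
    refine ⟨e.symm a, e.symm b, fun heq => hne ?_⟩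
    have := congrArg e heq
    rwa [map_mul, map_mul, e.apply_symm_apply, e.apply_symm_apply] at this
  have h2' : 2 ∣ Nat.card T := by rwa [Nat.card_congr e.toEquiv]
  have hinj : Function.Injective (MulAut.congr e).toMonoidHom := (MulAut.congr e).injective
  let f := B.equivMapOfInjective (MulAut.congr e).toMonoidHom hinj
  have h3 := h hs' hab' h2' hf' ⟨ρ.comp f.toMonoidHom, hρ.comp f.injective⟩
  have h4 := h1 (ZMod p) T T' e _ h3
  rw [Subgroup.map_sup, map_inn] at h4
  exact h4

end GnIM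

open GnIM in
theorem iGnI (h1 : GcIStmt) (h2 : FnIStmt) (h3 : GaXStmt) : GnIStmt := by
  intro N
  obtain ⟨n₀, hn₀⟩ := h2 N (fun T _ B p => RR T B p) (fun T T' _ _ e B p h => RR_inv h1 T T' e B p h)
    (by
      intro T _ _ hT B
      by_cases hs : IsSimpleGroup T
      · by_cases hab : ∃ a b : T, a * b ≠ b * a
        · by_cases hd : 2 ∣ Nat.card T
          · obtain ⟨g, hg⟩ := exists_prime_orderOf_dvd_card' (G := T) 2 hd
            have hg1 : g ≠ 1 := by
              rintro rfl
              rw [orderOf_one] at hg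
              omega
            have hg2 : g ^ 2 = 1 := by rw [← hg, pow_orderOf_eq_one]
            obtain ⟨n₀, hn₀⟩ := h3 T hab ⟨g, hg1, hg2⟩ ((MulAut.conj (G := T)).range ⊔ B) B rfl
            exact ⟨n₀, fun p hp => fun {_} _ _ _ _ hρ => hn₀ p hp hρ⟩
          · exact ⟨0, fun p _ => fun {_} _ _ h _ _ => absurd h hd⟩
        · exact ⟨0, fun p _ => fun {_} _ h _ _ _ => absurd h hab⟩
      · exact ⟨0, fun p _ => fun {_} h _ _ _ _ => absurd h hs⟩)
  refine ⟨n₀, fun p _ hp T _ _ hs hab hd hT B hρ => ?_⟩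
  exact hn₀ T hT B p hp hs hab hd inferInstance hρ

end MP7U
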