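import Pool.Agent.Lib.MP_7f581e_U.H.All
import Pool.Agent.Lib.MP_7f581e_U.I.GcI
import Pool.Agent.Lib.MP_7f581e_U.I.AcI
import Pool.Agent.Lib.MP_7f581e_U.I.FnI
import Pool.Agent.Lib.MP_7f581e_U.I.GnI

/-!
# C41 (MP_7f581e_nt), Block I, assembly
-/

set_option autoImplicit false

namespace MP7U

theorem xGcI : GcIStmt := iGcI

theorem xAcI : AcIStmt := iAcI

theorem xFnI : FnIStmt := iFnI

theorem xGnI : GnIStmt := iGnI xGcI xFnI xGaX

end MP7U
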