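import Pool.Agent.Lib.MP_7f581e_U.I.Spec1
import Pool.Agent.Lib.MP_7f581e_U.F.BasF
import Pool.Agent.Lib.MP_7f581e_K.T.Fin
import Pool.Agent.Lib.MP_7f581e_U.J.Defs

/-!
# C41 (MP_7f581e_nt), Block I: towers

The groups which are built from simple groups of order at most `N` and from the kernel factors of
the closure theorem.
-/

set_option autoImplicit false
set_option linter.unusedSectionVars false

universe u

namespace MP7U

open MP7K MP7Z MP7fR MP7fC MP7fE Equiv

section

variable {N p : ℕ} [Fact p.Prime]

/-- A tower with GA realisations. -/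
theorem TowerN.tower
    (h : ∀ (T : Type) [Group T] (B : Subgroup (MulAut T)), IsTypN N p T B →
      HasGAOver (ZMod p) T ((MulAut.conj (G := T)).range ⊔ B))
    {Q : Type} [Group Q] {G : Type} [Group G] (hG : TowerN N p Q G) :
    Tower p (ZMod p) Q G := by
  induction hG with
  | base G e => exact .base G e
  | step G H f hf hker _ ih =>
    refine .step G H f hf ?_ ih
    rcases hker with hk | ⟨T, _, B, hT, hA⟩
    · exact Or.inl hk
    · exact Or.inr (Or.inl ⟨T, inferInstance, _, h T B hT, hA⟩)

/-- A group acts on a normal subgroup `T ^ n` through `Aut T ≀ Sym(n)`. -/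
theorem actsThrough_top {T : Type} [Group T] [Finite T] [IsSimpleGroup T]
    (hnc : ∃ a b : T, a * b ≠ b * a) {G : Type} [Group G] (M : Subgroup G) [M.Normal] {n : ℕ}
    (φ : M ≃* (Fin n → T)) : ActsThrough M (⊤ : Subgroup (MulAut T)) := by
  have hc := G5.center_bot hnc
  refine ⟨n, φ, fun g => ?_⟩
  let cm : M ≃* M := MulAut.conjNormal (H := M) g
  obtain ⟨π, α, hα⟩ :=
    Pool.Agent.Lib.MP_7f581e_nt.AutAlt.aut_pi hc ((φ.symm.trans cm).trans φ)
  refine ⟨π, fun j => ⟨α j, Subgroup.mem_top _⟩, fun x y hxy j => ?_⟩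
  have h1 := hα (φ x) j
  have h2 : y = cm x := Subtype.ext (hxy.trans (MulAut.conjNormal_apply (H := M) g x).symm)
  rw [h2]
  simpa using h1

theorem map_range_conj {T T' : Type} [Group T] [Group T'] (e : T ≃* T') :
    (MulAut.conj (G := T)).range.map (MulAut.congr e).toMonoidHom =
      (MulAut.conj (G := T')).range := by
  ext α
  constructor
  · rintro ⟨_, ⟨s, rfl⟩, rfl⟩
    refine ⟨e s, ?_⟩
    ext x
    change e s * x * (e s)⁻¹ = e (s * e.symm x * s⁻¹)
    simp
  · rintro ⟨s, rfl⟩
    refine ⟨MulAut.conj (e.symm s), ⟨_, rfl⟩, ?_⟩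
    ext x
    change e (e.symm s * e.symm x * (e.symm s)⁻¹) = s * x * s⁻¹
    simp

theorem isTypN_congr {T T' : Type} [Group T] [Group T'] (e : T ≃* T') {B : Subgroup (MulAut T)}
    (h : IsTypN N p T B) : IsTypN N p T' (B.map (MulAut.congr e).toMonoidHom) := by
  obtain ⟨h1, h2, ⟨a, b, hab⟩, h4, h5, ρ, hρ⟩ := h
  refine ⟨Finite.of_equiv T e.toEquiv, e.symm.isSimpleGroup, ⟨e a, e b, fun h => hab ?_⟩, ?_, ?_,
    ?_⟩
  · rw [← map_mul, ← map_mul] at h
    exact e.injective h
  · rw [← Nat.card_congr e.toEquiv]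
    exact h4
  · rw [← Nat.card_congr e.toEquiv]
    exact h5
  · have hinj : Function.Injective (MulAut.congr e).toMonoidHom := (MulAut.congr e).injective
    let f := B.equivMapOfInjective (MulAut.congr e).toMonoidHom hinj
    exact ⟨ρ.comp f.symm.toMonoidHom, hρ.comp f.symm.injective⟩

theorem isFacN_congr (T T' : Type) [Group T] [Group T'] (e : T ≃* T') (h : IsFacN N p T) :
    IsFacN N p T' := by
  rcases h with h | ⟨B, hB, ht⟩
  · exact Or.inl (isKernelFactor_congrR T T' e h)
  · refine Or.inr ⟨_, isTypN_congr e hB, ?_⟩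
    rw [← map_range_conj e, ← Subgroup.map_sup, ht]
    exact Subgroup.map_top_of_surjective _ (MulAut.congr e).surjective

theorem isFacN_simple (T : Type) [Group T] (h : IsFacN N p T) : IsSimpleGroup T := by
  rcases h with h | ⟨B, hB, -⟩
  · exact isKernelFactor_simpleR T h
  · exact hB.2.1

/-- A group with allowed composition factors is built by a tower. -/
theorem tower_of_factors :
    ∀ (m : ℕ) (G : Type) [Group G] [Finite G], Nat.card G = m → HasFactors (IsFacN N p) G →
      TowerN N p Unit G := by
  intro m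
  induction m using Nat.strong_induction_on with
  | _ m ih =>
    intro G _ _ hm hG
    rcases subsingleton_or_nontrivial G with hsub | hnt
    · exact .base G
        { toFun := fun _ => (), invFun := fun _ => 1, left_inv := fun _ => Subsingleton.elim _ _,
          right_inv := fun _ => rfl, map_mul' := fun _ _ => rfl }
    · have hT : (⊤ : Subgroup G) ≠ ⊥ := top_ne_bot
      obtain ⟨M, hM, hMN, hM1, -, T, hTn, hTs, k, ⟨φ⟩⟩ := exists_min (⊤ : Subgroup G) hT
      have hMF : HasFactors (IsFacN N p) M := by
        refine hG.of_injective isFacN_congr isFacN_simple M M.subtype M.subtype_injective ?_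
        rw [Subgroup.range_subtype]
        exact hM
      have hTF : HasFactors (IsFacN N p) T := by
        refine hMF.of_injective isFacN_congr isFacN_simple T T.subtype T.subtype_injective ?_
        rw [Subgroup.range_subtype]
        exact hTn
      have hqF : HasFactors (IsFacN N p) (G ⧸ M) :=
        hG.of_surjective isFacN_congr isFacN_simple _ (QuotientGroup.mk' M)
          (QuotientGroup.mk'_surjective M)
      have hker : (QuotientGroup.mk' M).ker = M := QuotientGroup.ker_mk' M
      refine .step G (G ⧸ M) (QuotientGroup.mk' M) (QuotientGroup.mk'_surjective M) ?_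
        (ih _ (by rw [← hm]; exact card_quot_lt M hM1) (G ⧸ M) rfl hqF)
      rw [hker]
      rcases hTF.mem_of_isSimpleGroup isFacN_congr isFacN_simple with h | ⟨B, hB, ht⟩
      · left
        exact ((hasFactors_of_mem isKernelFactor_congrR h).pow isKernelFactor_congrR
          isKernelFactor_simpleR k).congr isKernelFactor_congrR
          isKernelFactor_simpleR φ.symm
      · right
        refine ⟨T, inferInstance, B, hB, ?_⟩
        rw [ht]
        have h1 := hB.1
        exact actsThrough_top hB.2.2.1 M φ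

end

/-- The trivial group occurs. -/
theorem occReg_unit (p : ℕ) [Fact p.Prime] : OccursRegularly Unit (ZMod p) := by
  obtain ⟨L, _, _, act, y, h1, h2, h3, -, -, h6⟩ := fBasF (ZMod p) Unit 1
  exact ⟨L, inferInstance, inferInstance, h1, h2, ⟨(MulEquiv.ofBijective act h3).symm⟩, h6⟩

/-- **The uniform theorem** (from the GA realisations). -/
theorem uniform_of (hGn : GnIStmt) (N : ℕ) : ∃ n₀ : ℕ, ∀ (p : ℕ) [Fact p.Prime], n₀ < p →
    (∀ (Q G : Type) [Group Q] [Group G] [Finite G], TowerN N p Q G →
      (Occurs Q (RatFunc (ZMod p)) → Occurs G (RatFunc (ZMod p))) ∧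
      (OccursRegularly Q (ZMod p) →
        (∀ (K : Type u) [Field K] [Algebra (ZMod p) K], OccursRegularly G K) ∧
          ∀ (K : Type u) [Field K] [Algebra (ZMod p) K], IsHilbertian K → Occurs G K)) ∧
    ∀ (G : Type) [Group G] [Finite G], HasFactors (IsFacN N p) G →
      (∀ (K : Type u) [Field K] [Algebra (ZMod p) K], OccursRegularly G K) ∧
        ∀ (K : Type u) [Field K] [Algebra (ZMod p) K], IsHilbertian K → Occurs G K := by
  obtain ⟨n₀, hn₀⟩ := hGn N
  refine ⟨n₀, fun p _ hp => ?_⟩
  have hga : ∀ (T : Type) [Group T] (B : Subgroup (MulAut T)), IsTypN N p T B →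
      HasGAOver (ZMod p) T ((MulAut.conj (G := T)).range ⊔ B) := by
    intro T _ B h
    have := h.1
    exact hn₀ p hp T h.2.1 h.2.2.1 h.2.2.2.1 h.2.2.2.2.1 B h.2.2.2.2.2
  have key : ∀ (Q G : Type) [Group Q] [Group G] [Finite G], TowerN N p Q G →
      (Occurs Q (RatFunc (ZMod p)) → Occurs G (RatFunc (ZMod p))) ∧
      (OccursRegularly Q (ZMod p) →
        (∀ (K : Type u) [Field K] [Algebra (ZMod p) K], OccursRegularly G K) ∧
          ∀ (K : Type u) [Field K] [Algebra (ZMod p) K], IsHilbertian K → Occurs G K) := by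
    intro Q G _ _ _ hG
    have h1 := hG.tower hga
    exact ⟨tower_occurs h1, tower_regular h1⟩
  refine ⟨key, fun G _ _ hG => ?_⟩
  exact (key Unit G (tower_of_factors _ G rfl hG)).2 (occReg_unit p)

end MP7U
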