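import Pool.Agent.Lib.MP_7f581e_U.I.All
import Pool.Agent.Lib.MP_7f581e_U.I.Twr

/-!
# C41 (MP_7f581e_nt): the uniform theorem
-/

set_option autoImplicit false

universe u

namespace MP7U

open MP7K MP7fR MP7fC

/-- **The uniform theorem.** -/
theorem uniform_main (N : ℕ) : ∃ n : ℕ, ∀ (p : ℕ) [Fact p.Prime], n < p →
    (∀ (Q G : Type) [Group Q] [Group G] [Finite G], TowerN N p Q G →
      (Occurs Q (RatFunc (ZMod p)) → Occurs G (RatFunc (ZMod p))) ∧
      (OccursRegularly Q (ZMod p) →
        (∀ (K : Type u) [Field K] [Algebra (ZMod p) K], OccursRegularly G K) ∧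
          ∀ (K : Type u) [Field K] [Algebra (ZMod p) K], IsHilbertian K → Occurs G K)) ∧
    ∀ (G : Type) [Group G] [Finite G], HasFactors (IsFacN N p) G →
      (∀ (K : Type u) [Field K] [Algebra (ZMod p) K], OccursRegularly G K) ∧
        ∀ (K : Type u) [Field K] [Algebra (ZMod p) K], IsHilbertian K → Occurs G K :=
  uniform_of xGnI N

end MP7U
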