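import Pool.Agent.Lib.MP_7f581e_U.H.Spec1

/-!
# C41 (MP_7f581e_nt), Block I: all simple groups of order at most `N`

One Lean task for each `def XStmt : Prop`: file `MP_7f581e_U/I/X.lean`, import this file,
`namespace MP7U`, `theorem iX : XStmt` (statements which are used are hypotheses, in the order of
the docstring: `theorem iX (h1 : AStmt) (h2 : BStmt) : XStmt`).
-/

set_option autoImplicit false

namespace MP7U

open MP7K

/-- **GcI.** (60 lines)  Transport of `HasGAOver` along an isomorphism.

*Proof.*  `A' = A.map (MulAut.congr e)`, `A ≃* A'` (the map is injective); `a'` is the composition of the inverse with `a`.  `MulAut.congr e` maps the inner automorphisms of `T` onto those of `T'`: `e ∘ conj s ∘ e⁻¹ = conj (e s)`.  The other conditions are transported. -/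
def GcIStmt : Prop :=
  ∀ (k : Type) [Field k] (T T' : Type) [Group T] [Group T'] (e : T ≃* T')
    (A : Subgroup (MulAut T)), HasGAOver k T A →
    HasGAOver k T' (A.map (MulAut.congr e).toMonoidHom)

/-- **AcI.** (40 lines)  Transport of `ActsThrough` along an isomorphism.

*Proof.*  `φ' = φ.trans (MulEquiv.piCongrRight fun _ => e)`, `α'_j = MulAut.congr e (α_j)`. -/
def AcIStmt : Prop :=
  ∀ (G : Type) [Group G] (M : Subgroup G) (T T' : Type) [Group T] [Group T'] (e : T ≃* T')
    (A : Subgroup (MulAut T)), ActsThrough M A → ActsThrough M (A.map (MulAut.congr e).toMonoidHom)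

/-- **FnI.** (120 lines)  There are finitely many groups of order at most `N`.

*Proof.*  For `m ≤ N` the group structures on `Fin m` are finitely many (a group structure is determined by its multiplication, `Group.ext`), and for each of them `MulAut (Fin m)` is finite, so it has finitely many subgroups.  So there is `n₀` which is good for all of them (a maximum over a finite type; the types
`Σ m : Fin (N + 1), Σ g : Group (Fin m), Subgroup (@MulAut (Fin m) _)` are finite).  Let `T` be a group of order `m ≤ N`; a bijection `T ≃ Fin m` transports the group structure (`Equiv.group`), so there is a group structure on `Fin m` and an isomorphism `e : T ≃* Fin m`.  `B' = B.map (MulAut.congr e)`; `R` is true for `(Fin m, B')`, and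
`B = B'.map (MulAut.congr e.symm)`, so by invariance it is true for `(T, B)`. -/
def FnIStmt : Prop :=
  ∀ (N : ℕ) (R : (T : Type) → [Group T] → Subgroup (MulAut T) → ℕ → Prop),
    (∀ (T T' : Type) [Group T] [Group T'] (e : T ≃* T') (B : Subgroup (MulAut T)) (p : ℕ),
      R T B p → R T' (B.map (MulAut.congr e).toMonoidHom) p) →
    (∀ (T : Type) [Group T] [Finite T], Nat.card T ≤ N → ∀ B : Subgroup (MulAut T),
      ∃ n₀ : ℕ, ∀ p, n₀ < p → R T B p) →
    ∃ n₀ : ℕ, ∀ (T : Type) [Group T] [Finite T], Nat.card T ≤ N → ∀ (B : Subgroup (MulAut T)) (p : ℕ),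
      n₀ < p → R T B p

/-- **GnI.** (100 lines)  Uses GcI, FnI, GaX (block H) in this order.  GA realisations, uniformly for all simple groups of order at most `N`.

*Proof.*  FnI for `R T B p := ∀ [Fact p.Prime], IsSimpleGroup T → (nonabelian) → 2 ∣ card T → Finite T → (∃ ρ : B → PGL₂(𝔽_p) injective) → HasGAOver (ZMod p) T (Inn T ⊔ B)`.  Invariance: transport everything back to `T` by `e.symm` (simplicity, noncommuting elements, the order, `ρ` composed with `B ≃* B.map ..`), then GcI and
`(Inn T ⊔ B).map (MulAut.congr e) = Inn T' ⊔ B.map (MulAut.congr e)` (`Subgroup.map_sup`).  The second hypothesis of FnI is GaX: an element of order two exists by Cauchy's theorem (`exists_prime_orderOf_dvd_card`). -/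
def GnIStmt : Prop :=
  ∀ N : ℕ, ∃ n₀ : ℕ, ∀ (p : ℕ) [Fact p.Prime], n₀ < p → ∀ (T : Type) [Group T] [Finite T],
    IsSimpleGroup T → (∃ a b : T, a * b ≠ b * a) → 2 ∣ Nat.card T → Nat.card T ≤ N →
    ∀ B : Subgroup (MulAut T), (∃ ρ : B →* PGL2 (ZMod p), Function.Injective ρ) →
    HasGAOver (ZMod p) T ((MulAut.conj (G := T)).range ⊔ B)

end MP7U
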